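import Pool.Agent.H211.CH.Stm2

set_option autoImplicit false

/-! A1b of project CH (helper274 for helper211) -/

open Polynomial
open Pool.Agent.H211.CH

namespace Pool.Agent.H274.CH211

universe u

/-- a polynomial whose roots have multiplicities divisible by `m` is an `m`-th power -/
theorem eq_pow {K : Type u} [Field K] [IsAlgClosed K] (S0 : K[X]) (m : ℕ) (hm : 1 ≤ m)
    (h : ∀ β ∈ S0.roots, m ∣ rootMultiplicity β S0) : ∃ S : K[X], S0 = S ^ m := by
  classical
  obtain ⟨u, hu⟩ := Multiset.exists_smul_of_dvd_count S0.roots (fun β hβ => by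
    rw [count_roots]
    exact h β hβ)
  obtain ⟨l, hl⟩ := IsAlgClosed.exists_pow_nat_eq S0.leadingCoeff (show 0 < m by omega)
  refine ⟨C l * (u.map fun β => X - C β).prod, ?_⟩
  have h1 := (IsAlgClosed.splits S0).eq_prod_roots
  rw [mul_pow, ← C_pow, hl, ← Multiset.prod_nsmul, ← Multiset.map_nsmul, ← hu]
  exact h1

theorem t_A1b {K : Type u} [Field K] [IsAlgClosed K] [CharZero K] : S_A1b K := by
  classical
  intro F Y m w c a hm hc hF hcomp
  obtain ⟨q, hq⟩ : ∃ q : K[X], q = C w + C c * (X - C a) ^ m := ⟨_, rfl⟩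
  have hqe : ∀ x, q.eval x = w + c * (x - a) ^ m := by
    intro x
    rw [hq]
    simp
  obtain ⟨G, hG⟩ : ∃ G : K[X], G = F - C w := ⟨_, rfl⟩
  have hG0 : G ≠ 0 := by
    intro h0
    rw [hG, sub_eq_zero] at h0
    rw [h0, natDegree_C] at hF
    exact lt_irrefl _ hF
  have hGc : G.comp q = C c * (Y - C a) ^ m := by
    rw [hG, sub_comp, C_comp, hq, hcomp]
    simp
  obtain ⟨S0, hS0, hS0w⟩ := exists_eq_pow_rootMultiplicity_mul_and_not_dvd G hG0 w
  have hS00 : S0 ≠ 0 := by
    rintro rfl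
    exact hS0w (dvd_zero _)
  have hS0e : S0.eval w ≠ 0 := fun h => hS0w (dvd_iff_isRoot.mpr h)
  obtain ⟨S, hS⟩ := eq_pow S0 m hm (fun β hβ => by
    have hβ0 : S0.eval β = 0 := (mem_roots hS00).mp hβ
    have hβw : β ≠ w := by
      rintro rfl
      exact hS0e hβ0
    obtain ⟨d, hd⟩ := IsAlgClosed.exists_pow_nat_eq ((β - w) / c) (show 0 < m by omega)
    have hd0 : d ≠ 0 := by
      rintro rfl
      rw [zero_pow (by omega)] at hd
      exact div_ne_zero (sub_ne_zero.mpr hβw) hc hd.symm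
    obtain ⟨γ, hγ⟩ : ∃ γ, γ = a + d := ⟨_, rfl⟩
    have hqγ : q.eval γ = β := by
      rw [hqe, hγ, add_sub_cancel_left, hd]
      field_simp
      ring
    -- the multiplicity of `β`
    obtain ⟨T, hT, hTβ⟩ := exists_eq_pow_rootMultiplicity_mul_and_not_dvd S0 hS00 β
    obtain ⟨k, hk⟩ : ∃ k, k = rootMultiplicity β S0 := ⟨_, rfl⟩
    rw [← hk] at hT
    have hTe : T.eval β ≠ 0 := fun h => hTβ (dvd_iff_isRoot.mpr h)
    rw [← hk]
    -- `q - β` has a simple root at `γ`
    have hroot : (q - C β).eval γ = 0 := by rw [eval_sub, eval_C, hqγ, sub_self]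
    obtain ⟨U, hU⟩ := dvd_iff_isRoot.mpr (show IsRoot (q - C β) γ from hroot)
    have hUe : U.eval γ ≠ 0 := by
      have h1 : derivative (q - C β) = derivative ((X - C γ) * U) := by rw [hU]
      have h2 := congrArg (fun p => p.eval γ) h1
      have h3 : (derivative (q - C β)).eval γ = c * (m * d ^ (m - 1)) := by
        rw [hq]
        simp [derivative_pow, hγ]
      have h4 : (derivative ((X - C γ) * U)).eval γ = U.eval γ := by
        simp
      rw [h3, h4] at h2
      rw [← h2]
      have hm0 : (m : K) ≠ 0 := by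
        have : m ≠ 0 := by omega
        exact_mod_cast this
      exact mul_ne_zero hc (mul_ne_zero hm0 (pow_ne_zero _ hd0))
    obtain ⟨V, hV⟩ : ∃ V : K[X], V = ((X - C w) ^ rootMultiplicity w G).comp q * (U ^ k * T.comp q) :=
      ⟨_, rfl⟩
    have hfac : G.comp q = V * (X - C γ) ^ k := by
      have h1 : G.comp q = ((X - C w) ^ rootMultiplicity w G * ((X - C β) ^ k * T)).comp q := by
        rw [← hT, ← hS0]
      have h2 : ((X - C β) ^ k).comp q = (X - C γ) ^ k * U ^ k := by
        rw [pow_comp, sub_comp, X_comp, C_comp, hU, mul_pow]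
      rw [h1, mul_comp, mul_comp, h2, hV]
      ring
    have hVe : V.eval γ ≠ 0 := by
      rw [hV, eval_mul, eval_mul, eval_comp, eval_comp, eval_pow, eval_pow, hqγ]
      refine mul_ne_zero (pow_ne_zero _ ?_) (mul_ne_zero (pow_ne_zero _ hUe) hTe)
      rw [eval_sub, eval_X, eval_C]
      exact sub_ne_zero.mpr hβw
    have hV0 : V ≠ 0 := by
      rintro rfl
      exact hVe eval_zero
    have hm1 : rootMultiplicity γ (G.comp q) = k := by
      rw [hfac, rootMultiplicity_mul_X_sub_C_pow hV0, rootMultiplicity_eq_zero hVe, zero_add]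
    have hm2 : rootMultiplicity γ (G.comp q) = m * (Y - C a).roots.count γ := by
      rw [hGc, ← count_roots, roots_C_mul _ hc, roots_pow, Multiset.count_nsmul]
    rw [← hm1, hm2]
    exact Dvd.intro _ rfl)
  refine ⟨rootMultiplicity w G, S, ?_⟩
  rw [← hG, ← hS]
  exact hS0

end Pool.Agent.H274.CH211
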